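import Pool.Agent.H99.FB.Force

/-!
# MP_a58811_lc: consistency of a positive answer

There is a forcing notion all of whose conditions force that `ω₁` is preserved, that the continuum
hypothesis holds, that no new subset of `ℕ` is added, and that there is a nonprincipal ultrafilter
`U` on `ℕ` with `ω^ω ≤_T U ≤_T U · U` and `U · U` not Tukey reducible to `U`. Moreover `U` is not
Tukey-top while its Fubini square `U · U` is Tukey-top.

The ultrafilter `U` is the generic object of a σ-closed forcing notion (`Pool.Agent.H99.FB.Cond`).
Its conditions are well-founded trees whose leaves are infinite sets of natural numbers and whose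
nodes have countably many successors; they describe a filter, namely the iterated sum of the
cofinite filter along the tree.
-/

set_option autoImplicit false

namespace Pool.Agent.Results.MP_a58811_lc.ForcedPositive

open Pool.Agent.Helper292.ForceCH (OmegaOnePreserved CHHolds)
open Pool.Agent.H282R3.FP (NoNewReals)
open Pool.Agent.H99.FB (Positive)

/-- There is a forcing notion `P` such that every condition forces that `ω₁` is preserved, that
`CH` holds, that there are no new subsets of `ℕ`, and that there is a nonprincipal ultrafilter `U`
on `ℕ` such that `ω^ω ≤_T U ≤_T U · U`, `U · U` is not Tukey reducible to `U`, `U` is not Tukey-top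
and `U · U` is Tukey-top. -/
theorem result :
    ∃ (P : Type) (_ : Preorder P), Nonempty P ∧ ∀ p : P,
      p ∈ OmegaOnePreserved P ∧ p ∈ CHHolds P ∧ p ∈ NoNewReals P ∧ p ∈ Positive P :=
  Pool.Agent.H99.FB.final

end Pool.Agent.Results.MP_a58811_lc.ForcedPositive
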